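import Pool.Agent.helper11.TX.Spec2
import Pool.Agent.helper90.TX.NU

/-!
# Project TX, part 2: row PO
-/

set_option autoImplicit false

namespace Pool.Agent.helper11.TX

open Finset Pool.Agent.helper85.FC

lemma PO_lam (c : ℤ) (hc : (2 : ℤ) ∣ c) :
    Lam 30 1 1 c ≤ 1 / 5 + (if (30 : ℤ) ∣ c then 1 / 15 else 0) := by
  unfold Lam
  rw [NU_pf30, prod_insert (by decide), prod_insert (by decide), prod_singleton]
  have e : ((1 : ℕ) : ℤ) * ((1 : ℕ) : ℤ) * c = c := by push_cast; ring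
  simp only [e]
  have h2 : ((2 : ℕ) : ℤ) ∣ c := by exact_mod_cast hc
  rw [if_pos h2]
  by_cases h3 : ((3 : ℕ) : ℤ) ∣ c
  · by_cases h5 : ((5 : ℕ) : ℤ) ∣ c
    · have h30 : (30 : ℤ) ∣ c := by push_cast at h3 h5; omega
      rw [if_pos h3, if_pos h5, if_pos h30]
      norm_num
    · rw [if_pos h3, if_neg h5]
      split_ifs <;> norm_num
  · by_cases h5 : ((5 : ℕ) : ℤ) ∣ c
    · rw [if_neg h3, if_pos h5]
      split_ifs <;> norm_num
    · rw [if_neg h3, if_neg h5]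
      split_ifs <;> norm_num

lemma PO_card (u : ℤ) (M : ℕ) :
    (#{c ∈ Ioc u (u + M) | (30 : ℤ) ∣ c} : ℝ) ≤ (M : ℝ) / 30 + 1 := by
  have h := Int.Ioc_filter_dvd_card u (u + M) (r := 30) (by norm_num)
  have h1 : (#{c ∈ Ioc u (u + M) | (30 : ℤ) ∣ c} : ℤ) * 30 ≤ M + 30 := by
    rw [h]
    have ha := Int.floor_le (((u + M : ℤ) : ℚ) / ((30 : ℤ) : ℚ))
    have hb := Int.lt_floor_add_one ((u : ℚ) / ((30 : ℤ) : ℚ))
    have h2 : ((⌊((u + M : ℤ) : ℚ) / ((30 : ℤ) : ℚ)⌋ - ⌊(u : ℚ) / ((30 : ℤ) : ℚ)⌋ : ℤ) : ℚ) * 30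
        ≤ (M : ℚ) + 30 := by
      push_cast at ha hb ⊢
      have h3 : ((u : ℚ) + M) / 30 - (u : ℚ) / 30 = M / 30 := by ring
      linarith
    have h4 : (⌊((u + M : ℤ) : ℚ) / ((30 : ℤ) : ℚ)⌋ - ⌊(u : ℚ) / ((30 : ℤ) : ℚ)⌋ : ℤ) * 30
        ≤ (M : ℤ) + 30 := by exact_mod_cast h2
    rcases max_choice (⌊((u + M : ℤ) : ℚ) / ((30 : ℤ) : ℚ)⌋ - ⌊(u : ℚ) / ((30 : ℤ) : ℚ)⌋) 0
      with h5 | h5
    · rw [h5]; exact h4
    · rw [h5]; positivity
  have h2 : (#{c ∈ Ioc u (u + M) | (30 : ℤ) ∣ c} : ℝ) * 30 ≤ (M : ℝ) + 30 := by exact_mod_cast h1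
  linarith

open Classical in
lemma PO_GG (M : ℕ) (u : ℤ) : GG 30 {1} (fun _ => 1) M u =
    ∑ c ∈ Ioc u (u + M) with TrueCase 1 1 c, Lam 30 1 1 c := by
  unfold GG Tw
  rw [sum_singleton, sum_singleton]
  have e1 : Nat.gcd 1 1 = 1 := rfl
  have e2 : (1 / 1 : ℕ) = 1 := rfl
  rw [e1, e2]
  simp only [Nat.cast_one, one_mul, mul_one, div_one]

open Classical in
theorem PO : PO_stmt := by
  intro hN ε hε
  obtain ⟨M₀, hM₀⟩ := hN 30 (by norm_num) dvd_rfl {1} (fun _ => 1)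
    (fun s hs => by rw [mem_singleton.1 hs]; exact ⟨one_pos, zero_le_one⟩) ε hε
  refine ⟨max M₀ (⌈1 / ε⌉₊), fun M hM u => ?_⟩
  have h1 := hM₀ M (le_trans (le_max_left _ _) hM) u
  have hMe : 1 / ε ≤ (M : ℝ) := (Nat.le_ceil _).trans (by exact_mod_cast le_trans (le_max_right _ _) hM)
  have hMe' : 1 ≤ ε * M := by rwa [div_le_iff₀ hε, mul_comm] at hMe
  have hyy : yy 30 1 = 1 := by unfold yy; simp
  rw [PO_GG, sum_singleton, hyy, one_mul, mul_one, NU.1] at h1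
  have h2 : ∑ c ∈ Ioc u (u + M) with TrueCase 1 1 c, Lam 30 1 1 c ≤
      1 / 5 * (#{c ∈ Ioc u (u + M) | TrueCase 1 1 c} : ℝ) + 1 / 15 * ((M : ℝ) / 30 + 1) := by
    calc ∑ c ∈ Ioc u (u + M) with TrueCase 1 1 c, Lam 30 1 1 c
        ≤ ∑ c ∈ Ioc u (u + M) with TrueCase 1 1 c,
            (1 / 5 + (if (30 : ℤ) ∣ c then 1 / 15 else 0)) := by
          refine sum_le_sum fun c hc => PO_lam c ?_
          have ht : TrueCase 1 1 c := (mem_filter.1 hc).2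
          have h3 := ht.2.2.2.2.2.2.1
          by_contra h4
          exact h3 ⟨odd_one, odd_one, Int.not_even_iff_odd.1 fun h5 => h4 (even_iff_two_dvd.1 h5)⟩
      _ = 1 / 5 * (#{c ∈ Ioc u (u + M) | TrueCase 1 1 c} : ℝ) +
            ∑ c ∈ Ioc u (u + M) with TrueCase 1 1 c, (if (30 : ℤ) ∣ c then (1 / 15 : ℝ) else 0) := by
          rw [sum_add_distrib, sum_const, nsmul_eq_mul, mul_comm]
      _ ≤ 1 / 5 * (#{c ∈ Ioc u (u + M) | TrueCase 1 1 c} : ℝ) +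
            ∑ c ∈ Ioc u (u + M), (if (30 : ℤ) ∣ c then (1 / 15 : ℝ) else 0) := by
          refine add_le_add le_rfl (sum_le_sum_of_subset_of_nonneg
            (filter_subset (fun c => TrueCase 1 1 c) (Ioc u (u + M))) fun c _ _ => ?_)
          split_ifs <;> norm_num
      _ = 1 / 5 * (#{c ∈ Ioc u (u + M) | TrueCase 1 1 c} : ℝ) +
            1 / 15 * (#{c ∈ Ioc u (u + M) | (30 : ℤ) ∣ c} : ℝ) := by
          rw [← sum_filter, sum_const, nsmul_eq_mul]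
          ring
      _ ≤ _ := by
          have := PO_card u M
          gcongr
  have h3 := h1.trans h2
  have h4 : (0 : ℝ) ≤ #{c ∈ Ioc u (u + M) | TrueCase 1 1 c} := Nat.cast_nonneg _
  nlinarith [h3, hMe', h4]

end Pool.Agent.helper11.TX
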